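import Mathlib

namespace Pool.Agent.Results.MP_6c7e5c_co.Blocks

/-- Minimum length of a word over an n-letter alphabet containing at least m permutations. -/
noncomputable def h (n m : ℕ) : ℕ :=
  sInf {L | ∃ w : List (Fin n), w.length = L ∧
    m ≤ {π : Equiv.Perm (Fin n) | (List.ofFn π).Sublist w}.ncard}

/-- Least l with l choose n at least m. -/
noncomputable def ell (m n : ℕ) : ℕ := sInf {l | m ≤ l.choose n}

theorem result (n m : ℕ) (hn : 1 ≤ n) (hm : 1 ≤ m) (hmn : m ≤ n.factorial) :
    h n m ≤ 13 * ell m n := by
  classical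
  let W : ℕ → List (Fin n) := fun k => (List.range (k * n)).map fun p => ⟨p % n, Nat.mod_lt _ hn⟩
  have sub : ∀ (k : ℕ) (σ : Equiv.Perm (Fin n)) (g : Fin n → Fin k), Monotone g →
      (∀ i j, i < j → g i = g j → σ i < σ j) → (List.ofFn σ).Sublist (W k) := by
    intro k σ g hg hσ
    let s : Fin n → ℕ := fun i => g i * n + σ i
    have hs : StrictMono s := by
      intro i j hij
      rcases (hg hij.le).eq_or_lt with e | e
      · have : (σ i).val < σ j := hσ i j hij e
        simp only [s, e]
        omega
      · have h1 : (g i).val + 1 ≤ g j := e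
        have h2 := Nat.mul_le_mul_right n h1
        have h3 := (σ i).2
        simp only [s]
        nlinarith
    have h1 : (List.ofFn s).Sublist (List.range (k * n)) := by
      refine List.sublist_of_subperm_of_sortedLE ?_ hs.sortedLT_ofFn.sortedLE
        (List.sortedLT_range _).sortedLE
      refine (List.nodup_ofFn.2 hs.injective).subperm fun x hx => ?_
      obtain ⟨i, rfl⟩ := List.mem_ofFn.1 hx
      have h1 : (g i).val + 1 ≤ k := (g i).2
      have h2 := Nat.mul_le_mul_right n h1
      have h3 := (σ i).2
      simp only [s, List.mem_range]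
      nlinarith
    have h2 := h1.map fun p => (⟨p % n, Nat.mod_lt _ hn⟩ : Fin n)
    rw [List.map_ofFn] at h2
    convert h2 using 2
    ext i
    simp [s, Nat.mod_eq_of_lt (σ i).2]
  have len : ∀ k, (W k).length = k * n := fun k => by simp [W]
  have cnt : ∀ k, k ^ n ≤ {π : Equiv.Perm (Fin n) | (List.ofFn π).Sublist (W k)}.ncard *
      2 ^ (n + k) := by
    intro k
    let P : Finset (Equiv.Perm (Fin n)) := Finset.univ.filter fun π => (List.ofFn π).Sublist (W k)
    have hP : {π : Equiv.Perm (Fin n) | (List.ofFn π).Sublist (W k)}.ncard = P.card := by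
      rw [← Set.ncard_coe_finset]; congr 1; ext; simp [P]
    let t : (Fin n → Fin k) → Fin n → ℕ := fun f i => i + f (Tuple.sort f i)
    have ht : ∀ f, StrictMono (t f) := by
      intro f i j hij
      have h1 : (f (Tuple.sort f i)).val ≤ f (Tuple.sort f j) := Tuple.monotone_sort f hij.le
      have h2 : i.val < j := hij
      simp only [t]
      omega
    have hc : (Finset.univ : Finset (Fin n → Fin k)).card ≤
        (P ×ˢ (Finset.range (n + k)).powerset).card := by
      refine Finset.card_le_card_of_injOn
        (fun f => (Tuple.sort f, Finset.univ.image (t f))) (fun f _ => ?_) fun f _ f' _ e => ?_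
      · simp only [Finset.coe_product, Set.mem_prod, Finset.mem_coe, Finset.mem_powerset]
        refine ⟨?_, fun x hx => ?_⟩
        · have := (Tuple.eq_sort_iff (f := f) (σ := Tuple.sort f)).1 rfl
          exact Finset.mem_filter.2 ⟨Finset.mem_univ _, sub k _ _ this.1 this.2⟩
        · obtain ⟨i, -, rfl⟩ := Finset.mem_image.1 hx
          have := i.2
          have := (f (Tuple.sort f i)).2
          simp only [t, Finset.mem_range]
          omega
      · simp only [Prod.mk.injEq] at e
        have h1 : Set.range (t f) = Set.range (t f') := by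
          rw [← Set.image_univ, ← Set.image_univ, ← Finset.coe_univ, ← Finset.coe_image,
            ← Finset.coe_image, e.2]
        have h2 := ((ht f).range_inj (ht f')).1 h1
        ext a
        obtain ⟨i, rfl⟩ := (Tuple.sort f).surjective a
        have := congrFun h2 i
        simp only [t, ← e.1] at this
        omega
    simpa [hP] using hc
  have hne : {l : ℕ | m ≤ l.choose n}.Nonempty := by
    refine ⟨n + m, ?_⟩
    have : ∀ j, j + 1 ≤ (n + j).choose n := by
      intro j
      induction j with
      | zero => simp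
      | succ j ih =>
        obtain ⟨r, rfl⟩ : ∃ r, n = r + 1 := ⟨n - 1, by omega⟩
        have e := Nat.choose_succ_succ' (r + 1 + j) r
        have := Nat.choose_pos (n := r + 1 + j) (k := r) (by omega)
        rw [← add_assoc, e]
        omega
    have := this m
    simp only [Set.mem_ofPred_eq]
    omega
  have hl : m ≤ (ell m n).choose n := Nat.sInf_mem hne
  set l := ell m n
  have hnl : n ≤ l := by
    by_contra hlt
    rw [Nat.choose_eq_zero_of_lt (by omega)] at hl
    omega
  have hk1 : 12 * l < (12 * l / n + 1) * n := by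
    have := Nat.lt_div_mul_add (a := 12 * l) hn
    linarith
  have hk2 : (12 * l / n) * n ≤ 12 * l := Nat.div_mul_le_self _ _
  set k := 12 * l / n + 1 with hk
  by_cases hkn : k ≤ n
  · refine le_trans (b := k * n) (Nat.sInf_le ⟨W k, len k, ?_⟩) (by rw [hk]; nlinarith)
    have c1 := cnt k
    set N := {π : Equiv.Perm (Fin n) | (List.ofFn π).Sublist (W k)}.ncard
    have a1 : (m : ℝ) ≤ (l : ℝ) ^ n / n.factorial := by
      have := Nat.choose_le_pow_div (α := ℝ) n l
      have h' : (m : ℝ) ≤ l.choose n := by exact_mod_cast hl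
      exact h'.trans (by exact_mod_cast this)
    have a2 : (n : ℝ) ^ n / n.factorial ≤ 3 ^ n := by
      refine (Real.pow_div_factorial_le_exp _ (Nat.cast_nonneg n) n).trans ?_
      rw [← Real.exp_one_pow]
      exact pow_le_pow_left₀ (Real.exp_pos 1).le (by linarith [Real.exp_one_lt_d9]) n
    have fp : (0 : ℝ) < n.factorial := by exact_mod_cast n.factorial_pos
    rw [le_div_iff₀ fp] at a1
    rw [div_le_iff₀ fp] at a2
    have a1' : m * n.factorial ≤ l ^ n := by exact_mod_cast a1
    have a2' : n ^ n ≤ 3 ^ n * n.factorial := by exact_mod_cast a2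
    have a3 : 2 ^ (n + k) ≤ 4 ^ n := by
      rw [show 4 = 2 ^ 2 by norm_num, ← pow_mul]
      exact Nat.pow_le_pow_right (by norm_num) (by omega)
    have a4 : (12 * l) ^ n ≤ (k * n) ^ n := Nat.pow_le_pow_left hk1.le n
    have a5 : m * (n.factorial * 12 ^ n) ≤ N * (n.factorial * 12 ^ n) := by
      calc m * (n.factorial * 12 ^ n) = 12 ^ n * (m * n.factorial) := by ring
        _ ≤ 12 ^ n * l ^ n := Nat.mul_le_mul_left _ a1'
        _ = (12 * l) ^ n := by rw [mul_pow]
        _ ≤ k ^ n * n ^ n := by rw [← mul_pow]; exact a4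
        _ ≤ (N * 4 ^ n) * (3 ^ n * n.factorial) :=
          Nat.mul_le_mul (c1.trans (Nat.mul_le_mul_left _ a3)) a2'
        _ = N * (n.factorial * 12 ^ n) := by
          rw [show 12 = 4 * 3 by norm_num, mul_pow]; ring
    exact Nat.le_of_mul_le_mul_right a5 (by positivity)
  · have hn2 : n * n ≤ 12 * l := (Nat.mul_le_mul_right n (by omega)).trans hk2
    refine le_trans (b := n * n) (Nat.sInf_le ⟨W n, len n, ?_⟩) (by omega)
    have : {π : Equiv.Perm (Fin n) | (List.ofFn π).Sublist (W n)} = Set.univ := by
      ext π
      simp only [Set.mem_ofPred_eq, Set.mem_univ, iff_true]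
      exact sub n π id monotone_id fun i j hij e => absurd e hij.ne
    rw [this, Set.ncard_univ, Nat.card_eq_fintype_card, Fintype.card_perm, Fintype.card_fin]
    exact hmn

end Pool.Agent.Results.MP_6c7e5c_co.Blocks
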